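import Mathlib
import Pool.Agent.Lib_helper89.CSP.Fin

set_option autoImplicit false

namespace Pool.Agent.Results.MP_a0d5d0_co.FewPeriodicArrays

open Pool.Agent.CSP

/-- There are at most `exp (C n^(2/3) (log n)^(4/3))` singly periodic Costas arrays of order `n`. -/
theorem result : ∃ C : ℝ, 0 < C ∧ ∀ n : ℕ, 2 ≤ n →
    (Nat.card {f : Fin n → Fin n // Function.Bijective f ∧ SP f} : ℝ) ≤
      Real.exp (C * (n : ℝ) ^ (2 / 3 : ℝ) * Real.log n ^ (4 / 3 : ℝ)) :=
  count

end Pool.Agent.Results.MP_a0d5d0_co.FewPeriodicArrays
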