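import Mathlib
import Pool.Agent.Lib_helper89.CSP.Fin

set_option autoImplicit false

namespace Pool.Agent.Results.MP_a0d5d0_co.WelchArraysIsolated

open Pool.Agent.CSP

/-- A singly periodic Costas array of order `p - 1` which is not a given `W₁` array of this order
differs from it in at least `(p - 7) / 20` columns. -/
theorem result (p : ℕ) (f h : Fin (p - 1) → Fin (p - 1)) (hf : W1 p f)
    (hh : Function.Bijective h) (hS : SP h) (hne : f ≠ h) :
    p ≤ 20 * (Finset.univ.filter (fun i => f i ≠ h i)).card + 7 :=
  isolated p f h hf hh hS hne

end Pool.Agent.Results.MP_a0d5d0_co.WelchArraysIsolated
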